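import Mathlib

namespace Pool.Agent.Results.MP_43e0cc_an.Jordan

open ENNReal Finset

variable {𝕜 : Type} [RCLike 𝕜] {p : ℝ≥0∞} [Fact (1 ≤ p)]

noncomputable def J : EuclideanSpace 𝕜 (Fin 2) ≃L[𝕜] EuclideanSpace 𝕜 (Fin 2) :=
  LinearEquiv.toContinuousLinearEquiv
    { toFun := fun x => x + x 1 • EuclideanSpace.single 0 1
      invFun := fun x => x - x 1 • EuclideanSpace.single 0 1
      map_add' := fun x y => by simp [add_smul]; abel
      map_smul' := fun c x => by simp [smul_smul]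
      left_inv := fun x => by simp
      right_inv := fun x => by simp }

theorem J0 (x : EuclideanSpace 𝕜 (Fin 2)) : J x 0 = x 0 + x 1 := by simp [J]
theorem J1 (x : EuclideanSpace 𝕜 (Fin 2)) : J x 1 = x 1 := by simp [J]

noncomputable abbrev E (𝕜 : Type) [RCLike 𝕜] (p : ℝ≥0∞) := lp (fun _ : ℤ => EuclideanSpace 𝕜 (Fin 2)) p

theorem pos (hp : p ≠ ∞) : 0 < p.toReal := toReal_pos (zero_lt_one.trans_le Fact.out).ne' hp

noncomputable def σ (hp : p ≠ ∞) (x : E 𝕜 p) : E 𝕜 p :=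
  ⟨fun n => J (x (n + 1)), memℓp_gen (.of_nonneg_of_le (fun _ => by positivity) (fun n =>
    (Real.rpow_le_rpow (norm_nonneg _) ((J (𝕜 := 𝕜)).toContinuousLinearMap.le_opNorm (x (n + 1)))
      (pos hp).le).trans_eq
      (Real.mul_rpow (norm_nonneg _) (norm_nonneg _)))
    (((Equiv.addRight (1 : ℤ)).summable_iff.2 ((lp.memℓp x).summable (pos hp))).mul_left
      (‖(J (𝕜 := 𝕜)).toContinuousLinearMap‖ ^ p.toReal)))⟩

variable (hp : p ≠ ∞)

theorem it (m : ℕ) (x : E 𝕜 p) (n : ℤ) : (σ hp)^[m] x n 1 = x (n + m) 1 ∧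
    (σ hp)^[m] x n 0 = x (n + m) 0 + m * x (n + m) 1 := by
  induction m generalizing n with
  | zero => simp
  | succ m ih =>
    rw [Function.iterate_succ_apply', show σ hp ((σ hp)^[m] x) n = J ((σ hp)^[m] x (n + 1)) from rfl,
      J0, J1, (ih _).1, (ih _).2, show n + 1 + m = n + (m + 1 : ℕ) by push_cast; ring]
    exact ⟨rfl, by push_cast; ring⟩

theorem co (x : E 𝕜 p) (n : ℤ) (j : Fin 2) : ‖x n j‖ ≤ ‖x‖ :=
  (PiLp.norm_apply_le _ j).trans (lp.norm_apply_le_norm (zero_lt_one.trans_le Fact.out).ne' x n)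

theorem lin {a b : 𝕜} {C : ℝ} (h : ∀ m : ℕ, ‖a + m * b‖ ≤ C) : b = 0 := by
  by_contra hb
  obtain ⟨m, hm⟩ := exists_nat_gt ((C + ‖a‖) / ‖b‖)
  have := norm_sub_le (a + m * b) a
  rw [add_sub_cancel_left, norm_mul, RCLike.norm_natCast] at this
  linarith [h m, (div_lt_iff₀ (norm_pos_iff.2 hb)).1 hm]

theorem iso (x : E 𝕜 p) (h : ∀ n, x n 1 = 0) (m : ℕ) : ‖(σ hp)^[m] x‖ = ‖x‖ := by
  rw [lp.norm_eq_tsum_rpow (pos hp), lp.norm_eq_tsum_rpow (pos hp),
    ← (Equiv.addRight (m : ℤ)).tsum_eq fun n => ‖x n‖ ^ p.toReal]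
  refine congrArg (· ^ _) (tsum_congr fun n => congrArg (‖·‖ ^ _) (PiLp.ext fun j => ?_))
  fin_cases j
  · simpa [h] using (it hp m x n).2
  · exact (it hp m x n).1

theorem main {k : ℕ} (ω : Fin k → ℤ → 𝕜) (hω : ∀ i n, ω i n ≠ 0)
    (H : E 𝕜 p ≃L[𝕜] (Fin k → lp (fun _ : ℤ => 𝕜) p))
    (h : ∀ x i n, H (σ hp x) i n = ω i (n + 1) * H x i (n + 1)) : False := by
  classical
  have p0 : p ≠ 0 := (zero_lt_one.trans_le Fact.out).ne'
  let V : Fin k → ℤ → ℕ → 𝕜 := fun i n m => ∏ r ∈ range m, ω i (n - r)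
  have hV : ∀ x i n (m : ℕ), H ((σ hp)^[m] x) i (n - m) = V i n m * H x i n := fun x i n m => by
    induction m with
    | zero => simp [V]
    | succ m ih =>
      rw [Function.iterate_succ_apply', h, show n - (m + 1 : ℕ) + 1 = n - m by push_cast; ring, ih]
      simp only [V, prod_range_succ]; ring
  let I : Fin k → ℤ → Prop := fun i n => ∃ C, ∀ m, ‖V i n m‖ ≤ C
  have Vs : ∀ i n m, V i (n + 1) (m + 1) = V i n m * ω i (n + 1) := fun i n m => by
    simp [V, prod_range_succ']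
  have I1 : ∀ i n, I i n ↔ I i (n + 1) := fun i n =>
    ⟨fun ⟨C, hC⟩ => ⟨max 1 (C * ‖ω i (n + 1)‖), fun m => by
      cases m with
      | zero => simp [V]
      | succ m => rw [Vs, norm_mul]; exact le_max_of_le_right (by gcongr; exact hC m)⟩,
    fun ⟨C, hC⟩ => ⟨C / ‖ω i (n + 1)‖, fun m => by
      rw [le_div_iff₀ (norm_pos_iff.2 (hω _ _)), ← norm_mul, ← Vs]; exact hC _⟩⟩
  have I0 : ∀ i n, I i n ↔ I i 0 := fun i n => by
    induction n using Int.induction_on with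
    | zero => rfl
    | succ n ih => rw [← I1, ih]
    | pred n ih => rw [I1, sub_add_cancel, ih]
  let P : (Fin k → lp (fun _ : ℤ => 𝕜) p) →L[𝕜] (Fin k → lp (fun _ : ℤ => 𝕜) p) :=
    .pi fun i => if I i 0 then .proj i else 0
  have Pa : ∀ g i, P g i = if I i 0 then g i else 0 := fun g i => by
    simp only [P, ContinuousLinearMap.pi_apply]; split_ifs <;> rfl
  let Q : E 𝕜 p →L[𝕜] E 𝕜 p := H.symm.toContinuousLinearMap ∘L P ∘L H.toContinuousLinearMap
  have HQ : ∀ x, H (Q x) = P (H x) := fun x => H.apply_symm_apply _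
  have a : ∀ x : E 𝕜 p, (∀ n, x n 1 = 0) → Q x = x := fun x hx => H.injective (by
    rw [HQ]
    funext i
    rw [Pa]
    split_ifs with hi
    · rfl
    refine lp.ext (funext fun n => (by_contra fun e => hi ((I0 i n).1
      ⟨‖H.toContinuousLinearMap‖ * ‖x‖ / ‖H x i n‖, fun m => ?_⟩) : H x i n = 0).symm)
    rw [le_div_iff₀ (norm_pos_iff.2 e), ← norm_mul, ← hV, ← iso hp x hx m]
    exact (lp.norm_apply_le_norm p0 _ _).trans ((norm_le_pi_norm _ i).trans
      (H.toContinuousLinearMap.le_opNorm _)))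
  have b0 : ∀ i, I i 0 → ∀ (f : lp (fun _ : ℤ => 𝕜) p) n, H.symm (Pi.single i f) n 1 = 0 :=
    fun i hi f n => by
      have : (EuclideanSpace.proj (1 : Fin 2) ∘L lp.evalCLM 𝕜 (fun _ : ℤ => EuclideanSpace 𝕜 (Fin 2)) p n)
          ∘L H.symm.toContinuousLinearMap ∘L ContinuousLinearMap.single 𝕜 _ i = 0 :=
        lp.ext_continuousLinearMap hp fun l => ContinuousLinearMap.ext fun c => by
          obtain ⟨C, hC⟩ := (I0 i l).2 hi
          refine lin (a := H.symm (Pi.single i (lp.single p l c)) n 0)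
            (C := ‖H.symm.toContinuousLinearMap‖ * (C * ‖c‖)) fun m => ?_
          have e := (it hp m (H.symm (Pi.single i (lp.single p l c))) (n - m)).2
          rw [sub_add_cancel] at e
          have e2 : H ((σ hp)^[m] (H.symm (Pi.single i (lp.single p l c)))) =
              Pi.single i (lp.single p (l - m) (V i l m * c)) := funext fun j => lp.ext (funext fun r => by
            have := hV (H.symm (Pi.single i (lp.single p l c))) j (r + m) m
            rw [add_sub_cancel_right, H.apply_symm_apply] at this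
            rw [this]
            rcases eq_or_ne j i with rfl | hj
            · rcases eq_or_ne (r + m) l with rfl | hr
              · simp
              · simp [Pi.single_eq_of_ne hr, Pi.single_eq_of_ne (show r ≠ l - m by omega)]
            · simp [Pi.single_eq_of_ne hj])
          refine (congrArg norm e).ge.trans ((co _ _ _).trans ?_)
          rw [← H.symm_apply_apply ((σ hp)^[m] _), e2]
          refine (H.symm.toContinuousLinearMap.le_opNorm _).trans ?_
          rw [Pi.norm_single, lp.norm_single (pos_iff_ne_zero.2 p0), norm_mul]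
          gcongr
          exact hC m
      exact DFunLike.congr_fun this f
  have b : ∀ x n, Q x n 1 = 0 := fun x n => by
    rw [show Q x = H.symm (P (H x)) from rfl, ← univ_sum_single (P (H x)), map_sum, lp.coeFn_sum,
      Finset.sum_apply, WithLp.ofLp_sum, Finset.sum_apply]
    refine sum_eq_zero fun i _ => ?_
    rw [Pa]
    split_ifs with hi
    · exact b0 i hi _ n
    · simp
  have c : ∀ x, Q (σ hp x) = σ hp (Q x) := fun x => H.injective (funext fun i => lp.ext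
    (funext fun n => by rw [HQ, h, HQ, Pa, Pa]; split_ifs <;> simp [h]))
  let w : ℤ → E 𝕜 p := fun n => lp.single p n (EuclideanSpace.single 1 1)
  refine one_ne_zero (lin (a := -Q (w 0) 0 0) (C := 1 + ‖Q‖ * 1) fun m => ?_)
  have h1 := a ((σ hp)^[m] (w 0) - w (-m)) fun n => by
    rw [lp.coeFn_sub, Pi.sub_apply, PiLp.sub_apply, (it hp m _ n).1]
    rcases eq_or_ne n (-m) with rfl | e
    · simp [w]
    · simp [w, Pi.single_eq_of_ne e, Pi.single_eq_of_ne (show n + m ≠ 0 by omega)]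
  have nw : ‖w (-m)‖ = 1 := by rw [lp.norm_single (pos_iff_ne_zero.2 p0)]; simp
  rw [map_sub, (Function.Commute.iterate_right (f := Q) c m).eq, sub_eq_sub_iff_sub_eq_sub] at h1
  have h2 := (co _ (-m) 0).trans ((congrArg norm h1).le.trans (norm_sub_le _ _))
  rw [lp.coeFn_sub, Pi.sub_apply, PiLp.sub_apply, (it hp m _ _).2, (it hp m _ _).2, b,
    neg_add_cancel, norm_sub_rev, nw] at h2
  have h3 := Q.le_opNorm (w (-m))
  rw [nw] at h3
  simp only [w, lp.single_apply, Pi.single_eq_same] at h2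
  simp at h2
  rw [mul_one, neg_add_eq_sub]
  linarith

def Bdd {𝕜 V : Type} [RCLike 𝕜] [NormedAddCommGroup V] [NormedSpace 𝕜 V] (S : ℤ → V ≃L[𝕜] V) :
    Prop := ∃ C : ℝ, ∀ n v, ‖S n v‖ ≤ C * ‖v‖ ∧ ‖(S n).symm v‖ ≤ C * ‖v‖

def Shift {V : Type} [NormedAddCommGroup V] {p : ℝ≥0∞} (S : ℤ → V → V)
    (x y : lp (fun _ : ℤ => V) p) : Prop := ∀ n, y n = S (n + 1) (x (n + 1))

def Conj (𝕜 : Type) {E F : Type} [RCLike 𝕜] [NormedAddCommGroup E] [NormedSpace 𝕜 E]
    [NormedAddCommGroup F] [NormedSpace 𝕜 F] (A : E → E → Prop) (B : F → F → Prop) : Prop :=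
  ∃ H : E ≃L[𝕜] F, ∀ x y, A x y → B (H x) (H y)

theorem result (𝕜 : Type) [RCLike 𝕜] (p : ℝ≥0∞) [Fact (1 ≤ p)] (hp : p ≠ ∞) :
    ∃ S : ℤ → EuclideanSpace 𝕜 (Fin 2) ≃L[𝕜] EuclideanSpace 𝕜 (Fin 2), Bdd S ∧
      ∀ (k : ℕ) (ω : Fin k → ℤ → 𝕜), (∀ i n, ω i n ≠ 0) →
        ¬ Conj 𝕜 (Shift (p := p) fun n => S n) fun f g : Fin k → lp (fun _ : ℤ => 𝕜) p =>
          ∀ i, Shift (fun n t => ω i n * t) (f i) (g i) :=
  ⟨fun _ => J, ⟨max ‖(J (𝕜 := 𝕜)).toContinuousLinearMap‖ ‖(J (𝕜 := 𝕜)).symm.toContinuousLinearMap‖,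
    fun _ v => ⟨(J (𝕜 := 𝕜)).toContinuousLinearMap.le_of_opNorm_le (le_max_left _ _) v,
    (J (𝕜 := 𝕜)).symm.toContinuousLinearMap.le_of_opNorm_le (le_max_right _ _) v⟩⟩, fun _ ω hω ⟨H, h⟩ =>
    main hp ω hω H fun x => h x _ fun _ => rfl⟩

end Pool.Agent.Results.MP_43e0cc_an.Jordan
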